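import Pool.Agent.MWGR.StmtsN
import Pool.Agent.MWGR.Mono

/-!
# MWGR, row TRE: the right state
-/

set_option autoImplicit false

namespace Pool.Agent.MWGR.H22

open Pool.Agent.Helper14_MV Pool.Agent.Helper2_MV Pool.Agent.MVO Pool.Agent.MWL Pool.Agent.MWS
  Pool.Agent.MWH

theorem behind {k i a : ℕ} {B : ℕ → List ℕ} (hB : OkB k B)
    (hg : ∀ c, NS k c → MWGP.Gm k (ty B c)) (hi : i ≤ k) (ha : (B i).count a = 1) :
    ∃ j, i < j ∧ j ≤ k ∧ a ∈ B j := by
  by_contra hcon
  have hmem : a ∈ B i := List.count_pos_iff.1 (by omega)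
  have hns : NS k a := hB.ok i hi a hmem
  have h2 := hB.ml i hi a hmem
  have hdeg : deg k (fun j => (B j).count a) = 1 := by
    unfold deg
    rw [Finset.sum_eq_single i]
    · exact ha
    · intro j hj hji
      have hjk : j ≤ k := by
        have := Finset.mem_range.1 hj
        omega
      rcases lt_or_gt_of_ne hji with h | h
      · by_contra h0
        have h3 := hg a hns j i h hi h0 (by
          show (B i).count a ≠ 0
          omega)
        have h4 : 2 ≤ (B i).count a := h3
        omega
      · exact List.count_eq_zero.2 (fun hm => hcon ⟨j, h, hjk, hm⟩)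
    · intro h
      exact absurd (Finset.mem_range.2 (by omega)) h
  rw [hdeg] at h2
  omega

theorem pair_sub (hSQL : SqlStmt) {k i j j' x a : ℕ} {B : ℕ → List ℕ} (hi : i ≤ k)
    (h1 : i < j) (h2 : j < j') (h3 : j' ≤ k) (hx : x ∈ B j) (ha : a ∈ B j') :
    [x, a].Sublist (suf B i (k - i)) := by
  have h := hSQL k i 2 B (fun t => if t = 0 then j else j') (fun t => if t = 0 then x else a) hi
    (by
      intro t ht
      interval_cases t
      · exact ⟨h1, by show j ≤ k; omega, hx⟩
      · exact ⟨by show i < j'; omega, h3, ha⟩)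
    (by
      intro t ht
      have h0 : t = 0 := by omega
      subst h0
      exact h2)
  have e : (List.range 2).map (fun t => if t = 0 then x else a) = [x, a] := by
    simp [List.range_succ]
  rw [e] at h
  exact h

theorem tre (hNFR : NfrStmt) (hREL : RelStmt) (hFRR : FrrStmt) (hSQL : SqlStmt) : TreStmt := by
  intro n β hReg k B B' hF i x a hi hxa hx ha
  by_cases hst : (cb (B i) x a = (B i).count x ↔ cb (B' i) x a = (B' i).count x)
  · refine ⟨[], by simp, ?_⟩
    intro θ _ _
    exact ⟨fun _ e he => by simp at he, fun _ hn => absurd hst hn⟩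
  obtain ⟨ja, hja1, hja2, hja3⟩ := behind hF.ok hF.gm hi ha
  by_cases hR : Rg k B i x a
  · by_cases hxb : ∃ j, i < j ∧ j ≤ k ∧ x ∈ B j
    · refine ⟨[Ed.al1], ?_, ?_⟩
      · intro e he
        rw [List.mem_singleton] at he
        subst he
        exact trivial
      · intro θ hle _
        refine ⟨?_, ?_⟩
        · intro hr e he
          rw [List.mem_singleton] at he
          subst he
          exact ((hNFR n k θ B B' (bg_mono hReg.toBG hle) hF hr i x a hi hxa hx ha hst).2.1 hR hxb)
        · intro hE _ H pr haH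
          obtain ⟨j, hj1, hj2, hj3⟩ := hxb
          have hlt : j < ja := hR ja j hja1 hja2 hj1 hj2 hja3 hj3
          exact (hREL n θ H pr (suf B i (k - i)) x a haH).2.1 (hE Ed.al1 (List.mem_singleton.2 rfl))
            (pair_sub hSQL hi hj1 hlt hja2 hj3 hja3)
    · refine ⟨[Ed.al0], ?_, ?_⟩
      · intro e he
        rw [List.mem_singleton] at he
        subst he
        exact trivial
      · intro θ hle _
        refine ⟨?_, ?_⟩
        · intro hr e he
          rw [List.mem_singleton] at he
          subst he
          exact ((hNFR n k θ B B' (bg_mono hReg.toBG hle) hF hr i x a hi hxa hx ha hst).1 hR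
            (fun j h1 h2 h3 => hxb ⟨j, h1, h2, h3⟩))
        · intro hE _ H pr haH
          exact (hREL n θ H pr (suf B i (k - i)) x a haH).1 (hE Ed.al0 (List.mem_singleton.2 rfl))
  · have hxb : ∃ j, i < j ∧ j ≤ k ∧ x ∈ B j := by
      by_contra hcon
      apply hR
      intro j j' h1 h2 h3 h4 h5 h6
      exact absurd ⟨j', h3, h4, h6⟩ hcon
    by_cases hR' : Rg k B i a x
    · refine ⟨[Ed.al2], ?_, ?_⟩
      · intro e he
        rw [List.mem_singleton] at he
        subst he
        exact trivial
      · intro θ hle _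
        refine ⟨?_, ?_⟩
        · intro hr e he
          rw [List.mem_singleton] at he
          subst he
          exact ((hNFR n k θ B B' (bg_mono hReg.toBG hle) hF hr i x a hi hxa hx ha hst).2.2 hR' hxb)
        · intro hE _ H pr haH
          obtain ⟨j, hj1, hj2, hj3⟩ := hxb
          have hlt : ja < j := hR' j ja hj1 hj2 hja1 hja2 hj3 hja3
          exact (hREL n θ H pr (suf B i (k - i)) x a haH).2.2 (hE Ed.al2 (List.mem_singleton.2 rfl))
            (pair_sub hSQL hi hja1 hlt hj2 hja3 hj3)
    · refine ⟨[], by simp, ?_⟩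
      intro θ hle _
      refine ⟨fun _ e he => by simp at he, ?_⟩
      intro _ _ H pr haH
      exact hFRR n θ (bg_mono hReg.toBG hle) (kaba_mono hReg.k hle) k B hF.ok hF.gm i x a hi hxa
        hR hR' H pr haH

end Pool.Agent.MWGR.H22
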